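import Pool.Agent.TH231.DFM.Stmts

/-!
# Exponential moments of `max |X_g|` for the SK Hamiltonian
-/

set_option autoImplicit false

open MeasureTheory ProbabilityTheory Filter Topology

namespace Pool.TH1.DFM

open Pool.TH231.DFM

instance (κ : Type) [Fintype κ] : IsProbabilityMeasure (gam κ) := by
  unfold gam; infer_instance

theorem integrable_exp_ip {κ : Type} [Fintype κ] (t : ℝ) (u : κ → ℝ) :
    Integrable (fun g => Real.exp (t * ip g u)) (gam κ) := by
  have h : Integrable (fun g : κ → ℝ => ∏ c, Real.exp ((t * u c) * g c)) (gam κ) := by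
    unfold gam
    exact Integrable.fintype_prod (f := fun c x => Real.exp ((t * u c) * x))
      (fun c => integrable_exp_mul_gaussianReal _)
  refine h.congr (Eventually.of_forall fun g => ?_)
  simp only
  rw [← Real.exp_sum]
  congr 1
  unfold ip
  rw [Finset.mul_sum]
  exact Finset.sum_congr rfl fun c _ => by ring

theorem integral_exp_ip {κ : Type} [Fintype κ] (t : ℝ) (u : κ → ℝ) :
    ∫ g, Real.exp (t * ip g u) ∂(gam κ) = Real.exp (t ^ 2 * ip u u / 2) := by
  have h : ∫ g : κ → ℝ, ∏ c, Real.exp ((t * u c) * g c) ∂(gam κ) =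
      ∏ c, Real.exp ((t * u c) ^ 2 / 2) := by
    unfold gam
    rw [integral_fintype_prod_eq_prod (f := fun c x => Real.exp ((t * u c) * x))]
    refine Finset.prod_congr rfl fun c _ => ?_
    have h1 := congrFun (mgf_fun_id_gaussianReal (μ := 0) (v := 1)) (t * u c)
    simp only [mgf] at h1
    rw [h1]
    congr 1
    simp
  have e : (fun g : κ → ℝ => Real.exp (t * ip g u)) =
      fun g : κ → ℝ => ∏ c, Real.exp ((t * u c) * g c) := by
    funext g
    rw [← Real.exp_sum]
    congr 1
    unfold ip
    rw [Finset.mul_sum]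
    exact Finset.sum_congr rfl fun c _ => by ring
  rw [e, h, ← Real.exp_sum]
  congr 1
  unfold ip
  rw [Finset.mul_sum, Finset.sum_div]
  exact Finset.sum_congr rfl fun c _ => by ring

theorem continuous_MM (β : ℝ) (N : ℕ) : Continuous (MM β N) := by
  have e : MM β N = fun g => Finset.univ.sup' Finset.univ_nonempty
      (fun σ : Fin N → Fin 2 => |ip g (uu β N σ)|) := by
    funext g
    rw [Finset.sup'_univ_eq_ciSup]
    rfl
  rw [e]
  refine Continuous.finset_sup'_apply _ fun σ _ => ?_
  unfold ip
  fun_prop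

theorem MM_nonneg (β : ℝ) (N : ℕ) (g : Fin N × Fin N → ℝ) : 0 ≤ MM β N g :=
  Real.iSup_nonneg fun _ => abs_nonneg _

theorem exp_MM_le (β : ℝ) (N : ℕ) (g : Fin N × Fin N → ℝ) :
    Real.exp (MM β N g) ≤ ∑ σ : Fin N → Fin 2,
      (Real.exp (1 * ip g (uu β N σ)) + Real.exp ((-1) * ip g (uu β N σ))) := by
  obtain ⟨σ, hσ⟩ := exists_eq_ciSup_of_finite (f := fun σ : Fin N → Fin 2 => |ip g (uu β N σ)|)
  have h1 : MM β N g = |ip g (uu β N σ)| := hσ.symm
  rw [h1]
  refine le_trans ?_ (Finset.single_le_sum (f := fun σ : Fin N → Fin 2 =>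
    (Real.exp (1 * ip g (uu β N σ)) + Real.exp ((-1) * ip g (uu β N σ))))
    (fun σ _ => by positivity) (Finset.mem_univ σ))
  rcases abs_cases (ip g (uu β N σ)) with ⟨h, _⟩ | ⟨h, _⟩
  · rw [h, one_mul]
    have := Real.exp_pos ((-1) * ip g (uu β N σ))
    linarith
  · rw [h, show (-1 : ℝ) * ip g (uu β N σ) = - ip g (uu β N σ) by ring]
    have := Real.exp_pos (1 * ip g (uu β N σ))
    linarith

theorem t_EXPM (hC : St_COV) : St_EXPM := by
  intro β c N hN hc0 hc1
  have hcont := continuous_MM β N
  have hint1 : Integrable (fun g => Real.exp (MM β N g)) (gam (Fin N × Fin N)) := by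
    have hb : Integrable (fun g => ∑ σ : Fin N → Fin 2,
        (Real.exp (1 * ip g (uu β N σ)) + Real.exp ((-1) * ip g (uu β N σ))))
        (gam (Fin N × Fin N)) :=
      integrable_finsetSum _ fun σ _ => (integrable_exp_ip _ _).add (integrable_exp_ip _ _)
    refine hb.mono' ((Real.continuous_exp.comp hcont).aestronglyMeasurable)
      (Eventually.of_forall fun g => ?_)
    rw [Real.norm_eq_abs, abs_of_pos (Real.exp_pos _)]
    exact exp_MM_le β N g
  have hval1 : ∫ g, Real.exp (MM β N g) ∂(gam (Fin N × Fin N)) ≤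
      Real.exp ((N + 1) * Real.log 2 + β ^ 2 * N / 4) := by
    calc ∫ g, Real.exp (MM β N g) ∂(gam (Fin N × Fin N))
        ≤ ∫ g, ∑ σ : Fin N → Fin 2,
          (Real.exp (1 * ip g (uu β N σ)) + Real.exp ((-1) * ip g (uu β N σ)))
            ∂(gam (Fin N × Fin N)) :=
          integral_mono hint1 (integrable_finsetSum _ fun σ _ =>
            (integrable_exp_ip _ _).add (integrable_exp_ip _ _)) (fun g => exp_MM_le β N g)
      _ = ∑ σ : Fin N → Fin 2, 2 * Real.exp (ip (uu β N σ) (uu β N σ) / 2) := by
          have hI : ∀ σ : Fin N → Fin 2, Integrable (fun g =>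
              Real.exp (1 * ip g (uu β N σ)) + Real.exp ((-1) * ip g (uu β N σ)))
              (gam (Fin N × Fin N)) := fun σ =>
            (integrable_exp_ip _ _).add (integrable_exp_ip _ _)
          rw [integral_finsetSum _ fun σ _ => hI σ]
          refine Finset.sum_congr rfl fun σ _ => ?_
          rw [integral_add (integrable_exp_ip _ _) (integrable_exp_ip _ _),
            integral_exp_ip, integral_exp_ip]
          norm_num
          ring
      _ ≤ ∑ σ : Fin N → Fin 2, 2 * Real.exp (β ^ 2 * N / 4) := by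
          refine Finset.sum_le_sum fun σ _ => ?_
          have h1 := hC β N hN σ σ
          have h2 : ip (uu β N σ) (uu β N σ) / 2 ≤ β ^ 2 * N / 4 := by
            rw [h1.1, h1.2.2]
            nlinarith [sq_nonneg β]
          have := Real.exp_le_exp.mpr h2
          linarith
      _ = Real.exp ((N + 1) * Real.log 2 + β ^ 2 * N / 4) := by
          rw [Finset.sum_const, Finset.card_univ, Real.exp_add]
          have : Real.exp ((N + 1) * Real.log 2) = 2 ^ (N + 1) := by
            rw [mul_comm, Real.exp_mul, Real.exp_log (by norm_num)]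
            exact_mod_cast Real.rpow_natCast 2 (N + 1)
          rw [this]
          simp only [Fintype.card_pi, Fintype.card_fin, Finset.prod_const, Finset.card_univ,
            nsmul_eq_mul]
          push_cast
          ring
  have hexp : ∀ g, Real.exp (c * MM β N g) = (Real.exp (MM β N g)) ^ c := by
    intro g
    rw [mul_comm, Real.exp_mul]
  have hle : ∀ g, Real.exp (c * MM β N g) ≤ Real.exp (MM β N g) := by
    intro g
    apply Real.exp_le_exp.mpr
    have := MM_nonneg β N g
    nlinarith
  have hintc : Integrable (fun g => Real.exp (c * MM β N g)) (gam (Fin N × Fin N)) := by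
    refine hint1.mono' ?_ (Eventually.of_forall fun g => ?_)
    · exact (Real.continuous_exp.comp (continuous_const.mul hcont)).aestronglyMeasurable
    · rw [Real.norm_eq_abs, abs_of_pos (Real.exp_pos _)]
      exact hle g
  refine ⟨hcont, MM_nonneg β N, hintc, ?_⟩
  have hJ := (Real.concaveOn_rpow hc0 hc1).le_map_integral (μ := gam (Fin N × Fin N))
    (f := fun g => Real.exp (MM β N g)) (Real.continuous_rpow_const hc0).continuousOn isClosed_Ici
    (Eventually.of_forall fun g => Set.mem_Ici.mpr (Real.exp_pos _).le) hint1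
    (by
      refine hintc.congr (Eventually.of_forall fun g => ?_)
      simp only [Function.comp]
      exact hexp g)
  unfold EE
  have e1 : (fun g => Real.exp (c * MM β N g)) = fun g => (Real.exp (MM β N g)) ^ c := by
    funext g; exact hexp g
  rw [e1]
  refine le_trans hJ ?_
  have h3 : 0 ≤ ∫ g, Real.exp (MM β N g) ∂(gam (Fin N × Fin N)) :=
    integral_nonneg fun g => (Real.exp_pos _).le
  refine le_trans (Real.rpow_le_rpow h3 hval1 hc0) ?_
  rw [← Real.exp_mul, mul_comm]

end Pool.TH1.DFM
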